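import Pool.Agent.Helper96.Fc.Good
import Pool.Agent.Helper3.SP.MDefs

/-!
# The generic extension by a forcing notion with the properties `GP` (framework)
-/

open Cardinal Ordinal Set

set_option linter.unusedSectionVars false

namespace Pool.Agent.Helper3.SP

open Pool.Agent.Helper96.Fc

/-! ### Ordinals of elements -/

/-- the ordinal of an element of the type of an ordinal -/
noncomputable def od {o : Ordinal.{0}} (a : o.ToType) : Ordinal.{0} :=
  Ordinal.typein (α := o.ToType) (· < ·) a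

theorem od_lt {o : Ordinal.{0}} (a : o.ToType) : od a < o := Ordinal.typein_lt_self a

theorem od_lt_od {o : Ordinal.{0}} {a b : o.ToType} : od a < od b ↔ a < b :=
  Ordinal.typein_lt_typein _

theorem od_inj {o : Ordinal.{0}} {a b : o.ToType} (h : od a = od b) : a = b :=
  (Ordinal.typein_inj _).1 h

theorem exists_od {o b : Ordinal.{0}} (h : b < o) : ∃ a : o.ToType, od a = b :=
  Ordinal.typein_surj (α := o.ToType) (· < ·) (by rwa [Ordinal.type_toType])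

variable {P : Type} [PartialOrder P] [OrderTop P]

/-- name of the identity function of an ordinal -/
noncomputable def idO (P : Type) [PartialOrder P] [OrderTop P] (o : Ordinal.{0}) : Nm P :=
  Nm.mk o.ToType (fun a => pairN (ordN P (od a)) (ordN P (od a))) (fun _ => ⊤)

/-- a map of `κ.ord` onto `α` if there is one -/
noncomputable def sj (κ : Cardinal.{0}) (α ξ : Ordinal.{0}) : Ordinal.{0} :=
  open Classical in
  if h : ∃ f : Ordinal.{0} → Ordinal.{0}, ∀ β < α, ∃ ξ < κ.ord, f ξ = β then h.choose ξ else 0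

/-- a preimage under this map -/
noncomputable def pre (κ : Cardinal.{0}) (α β : Ordinal.{0}) : Ordinal.{0} :=
  open Classical in
  if h : ∃ ξ < κ.ord, sj κ α ξ = β then h.choose else 0

/-- its name -/
noncomputable def sjN (P : Type) [PartialOrder P] [OrderTop P] (κ : Cardinal.{0})
    (α : Ordinal.{0}) : Nm P :=
  Nm.mk κ.ord.ToType (fun a => pairN (ordN P (od a)) (ordN P (sj κ α (od a)))) (fun _ => ⊤)

theorem sj_spec {κ : Cardinal.{0}} {α : Ordinal.{0}} (hα : α < (Order.succ κ).ord)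
    {β : Ordinal.{0}} (hβ : β < α) : ∃ ξ < κ.ord, sj κ α ξ = β := by
  classical
  have h : ∃ f : Ordinal.{0} → Ordinal.{0}, ∀ β < α, ∃ ξ < κ.ord, f ξ = β := by
    have h1 : α.card ≤ κ := Order.lt_succ_iff.1 (Cardinal.lt_ord.1 hα)
    have h2 : #α.ToType ≤ #κ.ord.ToType := by
      rw [Cardinal.mk_ord_toType, Cardinal.mk_toType]
      exact h1
    obtain ⟨⟨g, hg⟩⟩ := h2
    refine ⟨fun ξ => if h : ∃ a : α.ToType, od (g a) = ξ then od h.choose else 0, ?_⟩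
    intro β hβ
    obtain ⟨a, rfl⟩ := exists_od hβ
    refine ⟨od (g a), od_lt _, ?_⟩
    have h3 : ∃ b : α.ToType, od (g b) = od (g a) := ⟨a, rfl⟩
    change (if h : ∃ b : α.ToType, od (g b) = od (g a) then od h.choose else 0) = od a
    rw [dif_pos h3]
    rw [hg (od_inj h3.choose_spec)]
  obtain ⟨ξ, h1, h2⟩ := h.choose_spec β hβ
  refine ⟨ξ, h1, ?_⟩
  rw [sj, dif_pos h]
  exact h2

theorem pre_spec {κ : Cardinal.{0}} {α : Ordinal.{0}} (hα : α < (Order.succ κ).ord)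
    {β : Ordinal.{0}} (hβ : β < α) : pre κ α β < κ.ord ∧ sj κ α (pre κ α β) = β := by
  have h := sj_spec hα hβ
  rw [pre, dif_pos h]
  exact h.choose_spec

/-! ### Relations for the genericity -/

/-- `p` forces that `f` is not a function (on ordinals) -/
def RFn (p : P) (l : List (Obj P)) : Prop :=
  ∃ (β ξ η : Ordinal.{0}) (f : Nm P),
    l = [Sum.inl (pairN (ordN P β) (pairN (ordN P ξ) (ordN P η))), Sum.inl f] ∧
      ξ ≠ η ∧ FMem (pairN (ordN P β) (ordN P ξ)) f p ∧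
        FMem (pairN (ordN P β) (ordN P η)) f p

/-- `p` forces that the values of `f` on `b` below `θ` are below `γ` -/
def RBd (p : P) (l : List (Obj P)) : Prop :=
  ∃ (γ b θ : Ordinal.{0}) (f : Nm P),
    l = [Sum.inl (ordN P γ), Sum.inl f, Sum.inl (ordN P b), Sum.inl (ordN P θ)] ∧ γ < θ ∧
      ∀ q ≤ p, ∀ x < b, ∀ y < θ, FMem (pairN (ordN P x) (ordN P y)) f q → y < γ

/-- `p` forces that `H` has no element between `c` and `θ` -/
def RUnb (p : P) (l : List (Obj P)) : Prop :=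
  ∃ (c θ : Ordinal.{0}) (H : Nm P),
    l = [Sum.inl (ordN P c), Sum.inl H, Sum.inl (ordN P θ)] ∧ c < θ ∧
      ∀ q ≤ p, ∀ b, c < b → b < θ → ¬ FMem (ordN P b) H q

/-- closure and genericity conditions -/
structure Gd (κ : Cardinal.{0}) (X : Set (Obj P)) (G : Set P) : Prop where
  basic : Basic X G
  clos : Clos X
  kX : (Sum.inl (ordN P κ.ord) : Obj P) ∈ X
  mX : (Sum.inl (ordN P (Order.succ κ).ord) : Obj P) ∈ X
  id : ∀ α, (Sum.inl (ordN P α) : Obj P) ∈ X → (Sum.inl (idO P α) : Obj P) ∈ X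
  sj : ∀ α, (Sum.inl (ordN P α) : Obj P) ∈ X → (Sum.inl (sjN P κ α) : Obj P) ∈ X
  pre : ∀ α β, (Sum.inl (ordN P α) : Obj P) ∈ X → (Sum.inl (ordN P β) : Obj P) ∈ X →
    (Sum.inl (ordN P (pre κ α β)) : Obj P) ∈ X
  gFn : GenR X G RFn
  gBd : GenR X G RBd
  gUnb : GenR X G RUnb

/-- the operations -/
def OB (κ : Cardinal.{0}) : ℕ → List (Obj P) → Obj P → Prop
  | 0, l, z => l = [] ∧ z = Sum.inl (ordN P κ.ord)
  | 1, l, z => l = [] ∧ z = Sum.inl (ordN P (Order.succ κ).ord)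
  | 2, l, z => ∃ α, l = [Sum.inl (ordN P α)] ∧ z = Sum.inl (idO P α)
  | 3, l, z => ∃ α, l = [Sum.inl (ordN P α)] ∧ z = Sum.inl (sjN P κ α)
  | 4, l, z => ∃ α β, l = [Sum.inl (ordN P α), Sum.inl (ordN P β)] ∧
      z = Sum.inl (ordN P (pre κ α β))
  | _, _, _ => False

theorem OB_fun (κ : Cardinal.{0}) : ∀ (k : ℕ) (l : List (Obj P)) (y z : Obj P),
    OB κ k l y → OB κ k l z → y = z := by
  intro k l y z hy hz
  match k, hy, hz with
  | 0, hy, hz => rw [hy.2, hz.2]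
  | 1, hy, hz => rw [hy.2, hz.2]
  | 2, hy, hz =>
    obtain ⟨a, rfl, rfl⟩ := hy
    obtain ⟨c, h, rfl⟩ := hz
    simp only [List.cons.injEq, Sum.inl.injEq, and_true] at h
    rw [ordN_inj' h]
  | 3, hy, hz =>
    obtain ⟨a, rfl, rfl⟩ := hy
    obtain ⟨c, h, rfl⟩ := hz
    simp only [List.cons.injEq, Sum.inl.injEq, and_true] at h
    rw [ordN_inj' h]
  | 4, hy, hz =>
    obtain ⟨a, b, rfl, rfl⟩ := hy
    obtain ⟨c, d, h, rfl⟩ := hz
    simp only [List.cons.injEq, Sum.inl.injEq, and_true] at h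
    rw [ordN_inj' h.1, ordN_inj' h.2]
  | (n + 5), hy, hz => exact hy.elim

/-- **Existence of the extension**, with further closure and genericity conditions. -/
theorem exists_gd' (κ : Cardinal.{0}) {K : Type} [Countable K] (R' : K → P → List (Obj P) → Prop)
    (O' : K → List (Obj P) → Obj P → Prop)
    (hO' : ∀ k l y z, O' k l y → O' k l z → y = z) :
    ∃ (X : Set (Obj P)) (G : Set P), X.Countable ∧ Gd κ X G ∧ (∀ k, GenR X G (R' k)) ∧
      ∀ k l y, (∀ a ∈ l, a ∈ X) → O' k l y → y ∈ X := by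
  obtain ⟨X, G, hX, -, hb, hc, hR0, hO0⟩ := exists_good
    (K := ℕ ⊕ K) (Sum.elim (fun n => match n with | 0 => RFn | 1 => RBd | _ => RUnb) R')
    (Sum.elim (OB κ) O')
    (by
      rintro (k | k) l y z hy hz
      · exact OB_fun κ k l y z hy hz
      · exact hO' k l y z hy hz) (⊤ : P)
  have hO : ∀ k l y, (∀ a ∈ l, a ∈ X) → OB κ k l y → y ∈ X := fun k => hO0 (.inl k)
  have l0 : ∀ b ∈ ([] : List (Obj P)), b ∈ X := by simp
  have l1 : ∀ {a : Obj P}, a ∈ X → ∀ b ∈ [a], b ∈ X := by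
    intro a ha b hb
    rw [List.mem_singleton] at hb
    rwa [hb]
  have l2 : ∀ {a c : Obj P}, a ∈ X → c ∈ X → ∀ b ∈ [a, c], b ∈ X := by
    intro a c ha hc b hb
    rcases List.mem_cons.1 hb with rfl | hb
    · exact ha
    · exact l1 hc b hb
  refine ⟨X, G, hX, ⟨hb, hc, ?_, ?_, ?_, ?_, ?_, hR0 (.inl 0), hR0 (.inl 1), hR0 (.inl 2)⟩,
    fun k => hR0 (.inr k), fun k => hO0 (.inr k)⟩
  · exact hO 0 [] _ l0 ⟨rfl, rfl⟩
  · exact hO 1 [] _ l0 ⟨rfl, rfl⟩
  · exact fun α hα => hO 2 _ _ (l1 hα) ⟨α, rfl, rfl⟩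
  · exact fun α hα => hO 3 _ _ (l1 hα) ⟨α, rfl, rfl⟩
  · exact fun α β hα hβ => hO 4 _ _ (l2 hα hβ) ⟨α, β, rfl, rfl⟩

/-! ### Basic facts -/

/-- the value of the canonical name of an ordinal -/
noncomputable def vo (X : Set (Obj P)) (G : Set P) (a : Ordinal.{0}) : ZFSet.{0} :=
  val X G (ordN P a)

section

variable {κ : Cardinal.{0}} {X : Set (Obj P)} {G : Set P}

theorem l1X {a : Obj P} (ha : a ∈ X) : ∀ c ∈ [a], c ∈ X := by
  intro c hc
  rw [List.mem_singleton] at hc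
  rwa [hc]

theorem l2X {a b : Obj P} (ha : a ∈ X) (hb : b ∈ X) : ∀ c ∈ [a, b], c ∈ X := by
  intro c hc
  simp only [List.mem_cons, List.not_mem_nil, or_false] at hc
  rcases hc with rfl | rfl
  · exact ha
  · exact hb

theorem l3X {a b c : Obj P} (ha : a ∈ X) (hb : b ∈ X) (hc : c ∈ X) : ∀ e ∈ [a, b, c], e ∈ X := by
  intro e he
  simp only [List.mem_cons, List.not_mem_nil, or_false] at he
  rcases he with rfl | rfl | rfl
  · exact ha
  · exact hb
  · exact hc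

theorem Gd.mem_vo (h : Gd κ X G) {a : Ordinal.{0}} {z : ZFSet.{0}} :
    z ∈ vo X G a ↔ ∃ b < a, (Sum.inl (ordN P b) : Obj P) ∈ X ∧ vo X G b = z :=
  val_ordN_mem h.basic.filt

theorem Gd.vo_inj (h : Gd κ X G) {a b : Ordinal.{0}} (ha : (Sum.inl (ordN P a) : Obj P) ∈ X)
    (hb : (Sum.inl (ordN P b) : Obj P) ∈ X) (he : vo X G a = vo X G b) : a = b :=
  val_ordN_inj h.basic ha hb he

theorem Gd.vo_mem_iff (h : Gd κ X G) {a b : Ordinal.{0}}
    (ha : (Sum.inl (ordN P a) : Obj P) ∈ X) (hb : (Sum.inl (ordN P b) : Obj P) ∈ X) :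
    vo X G a ∈ vo X G b ↔ a < b :=
  val_ordN_mem_iff h.basic ha hb

theorem Gd.vo_mod {a : Ordinal.{0}} (ha : (Sum.inl (ordN P a) : Obj P) ∈ X) :
    vo X G a ∈ Mod X G :=
  mem_Mod ha

theorem Gd.vo_ord (h : Gd κ X G) {a : Ordinal.{0}} : (vo X G a).IsOrdinal :=
  val_ordN_isOrdinal h.basic.filt

theorem Gd.natX (h : Gd κ X G) (n : ℕ) : (Sum.inl (ordN P (n : Ordinal.{0})) : Obj P) ∈ X := by
  induction n with
  | zero =>
    rw [Nat.cast_zero]
    exact h.clos.zero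
  | succ n ih =>
    rw [Nat.cast_add, Nat.cast_one]
    exact h.clos.succ _ ih

theorem Gd.vo_nat (h : Gd κ X G) (n : ℕ) : vo X G (n : Ordinal.{0}) =
    (n : Ordinal.{0}).toZFSet := by
  induction n with
  | zero =>
    rw [Nat.cast_zero, Ordinal.toZFSet_zero]
    exact val_ordN_zero h.basic.filt
  | succ n ih =>
    rw [Nat.cast_add, Nat.cast_one, Ordinal.toZFSet_add_one, ← ih]
    exact val_ordN_succ h.basic.filt (h.natX n)

theorem Gd.vo_omega (h : Gd κ X G) : vo X G ω = Ordinal.toZFSet ω := by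
  ext z
  rw [h.mem_vo, Ordinal.mem_toZFSet_iff]
  constructor
  · rintro ⟨b, hb, -, rfl⟩
    obtain ⟨n, rfl⟩ := lt_omega0.1 hb
    exact ⟨n, natCast_lt_omega0 n, (h.vo_nat n).symm⟩
  · rintro ⟨b, hb, rfl⟩
    obtain ⟨n, rfl⟩ := lt_omega0.1 hb
    exact ⟨n, natCast_lt_omega0 n, h.natX n, h.vo_nat n⟩

/-- membership in a set of the extension -/
theorem Gd.mem_iff (h : Gd κ X G) {x f : Nm P} (hx : (Sum.inl x : Obj P) ∈ X)
    (hf : (Sum.inl f : Obj P) ∈ X) : val X G x ∈ val X G f ↔ ∃ p ∈ G, FMem x f p :=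
  h.basic.mem_iff hx hf

/-- membership of a pair in a function -/
theorem Gd.pair_iff (h : Gd κ X G) {x y f : Nm P} (hx : (Sum.inl x : Obj P) ∈ X)
    (hy : (Sum.inl y : Obj P) ∈ X) (hf : (Sum.inl f : Obj P) ∈ X) :
    ZFSet.pair (val X G x) (val X G y) ∈ val X G f ↔ ∃ p ∈ G, FMem (pairN x y) f p := by
  rw [← val_pairN h.basic.filt h.clos hx hy]
  exact h.basic.mem_iff (h.clos.pair hx hy) hf

/-- an unbounded subset of a regular cardinal is big -/
theorem big_of_unb0 {N : Set ZFSet.{0}} {K H : ZFSet.{0}} (hK : RegIn N K) (hH : H ∈ N)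
    (hs : H ⊆ K) (hu : ∀ c ∈ K, ∃ b ∈ H, c ∈ b) : Big N K H := by
  refine ⟨hH, hs, ?_⟩
  rintro β hβ ⟨f, hf, hfun, hon⟩
  obtain ⟨γ, hγ, hb⟩ := hK.2 f hf hfun β hβ
  obtain ⟨b, hb1, hb2⟩ := hu γ hγ
  obtain ⟨x, hx, hxb⟩ := hon b hb1
  have h1 := hb x hx b (hs hb1) hxb
  exact ZFSet.mem_asymm h1 hb2

theorem Gd.unb_of_big (h : Gd κ X G) {θ : Ordinal.{0}} (hθ : (Sum.inl (ordN P θ) : Obj P) ∈ X)
    (hlim : ∀ a < θ, a + 1 < θ) {H : ZFSet.{0}} (hB : Big (Mod X G) (vo X G θ) H) :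
    ∀ c ∈ vo X G θ, ∃ b ∈ H, c ∈ b := by
  intro c hc
  by_contra hcon
  push Not at hcon
  obtain ⟨γ, hγ, hγX, rfl⟩ := h.mem_vo.1 hc
  have hγ1 := h.clos.succ γ hγX
  refine hB.2.2 (vo X G (γ + 1)) ((h.vo_mem_iff hγ1 hθ).2 (hlim γ hγ)) ⟨_, mem_Mod (h.id θ hθ), ?_,
    ?_⟩
  · intro x y z hy hz
    obtain ⟨a, -, h1, h2⟩ := mem_val.1 hy
    obtain ⟨b, -, h3, h4⟩ := mem_val.1 hz
    change (Sum.inl (pairN (ordN P (od a)) (ordN P (od a))) : Obj P) ∈ X at h1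
    change (Sum.inl (pairN (ordN P (od b)) (ordN P (od b))) : Obj P) ∈ X at h3
    change val X G (pairN (ordN P (od a)) (ordN P (od a))) = _ at h2
    change val X G (pairN (ordN P (od b)) (ordN P (od b))) = _ at h4
    rw [val_pairN h.basic.filt h.clos (h.clos.fst _ _ h1) (h.clos.fst _ _ h1)] at h2
    rw [val_pairN h.basic.filt h.clos (h.clos.fst _ _ h3) (h.clos.fst _ _ h3)] at h4
    obtain ⟨h5, h6⟩ := ZFSet.pair_injective h2
    obtain ⟨h7, h8⟩ := ZFSet.pair_injective h4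
    rw [← h6, ← h8, h5, h7]
  · intro y hy
    obtain ⟨b, hb, hbX, rfl⟩ := h.mem_vo.1 (hB.2.1 hy)
    have h1 : b ≤ γ := by
      by_contra h2
      exact hcon _ hy ((h.vo_mem_iff hγX hbX).2 (not_le.1 h2))
    refine ⟨vo X G b, (h.vo_mem_iff hbX hγ1).2 (Order.lt_add_one_iff.2 h1), ?_⟩
    obtain ⟨a, rfl⟩ := exists_od hb
    have h2 : ZFSet.pair (vo X G (od a)) (vo X G (od a)) =
        val X G (pairN (ordN P (od a)) (ordN P (od a))) :=
      (val_pairN h.basic.filt h.clos hbX hbX).symm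
    rw [h2]
    exact mem_val.2 ⟨a, h.basic.filt.top, h.clos.pair hbX hbX, rfl⟩

/-- a condition that forces that `f` is a function (on ordinals) -/
theorem Gd.exists_fn (h : Gd κ X G) {f : Nm P} (hf : (Sum.inl f : Obj P) ∈ X)
    (hfun : Func (val X G f)) :
    ∃ p ∈ G, ∀ q ≤ p, ∀ β ξ η, FMem (pairN (ordN P β) (ordN P ξ)) f q →
      FMem (pairN (ordN P β) (ordN P η)) f q → ξ = η := by
  obtain ⟨p2, hp2, h2⟩ := h.gFn _ (l1X hf)
  refine ⟨p2, hp2, ?_⟩
  rcases h2 with ⟨y, hy, β, ξ, η, f', he, hne, h3, h4⟩ | h2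
  · exfalso
    obtain ⟨he1, he2⟩ := List.cons.inj he
    obtain ⟨he2, -⟩ := List.cons.inj he2
    have he3 := Sum.inl.inj he2
    subst he3
    rw [he1] at hy
    have hβ := h.clos.fst _ _ hy
    have hrest := h.clos.snd _ _ hy
    have hξ := h.clos.fst _ _ hrest
    have hη := h.clos.snd _ _ hrest
    have e1 := (h.pair_iff hβ hξ hf).2 ⟨p2, hp2, h3⟩
    have e2 := (h.pair_iff hβ hη hf).2 ⟨p2, hp2, h4⟩
    exact hne (h.vo_inj hξ hη (hfun _ _ _ e1 e2))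
  · intro q hq β ξ η h3 h4
    by_contra hne
    exact h2 q hq _ ⟨β, ξ, η, f, rfl, hne, h3, h4⟩

/-- a condition that forces that `H` is unbounded in `θ` -/
theorem Gd.exists_unb (h : Gd κ X G) {H : Nm P} (hH : (Sum.inl H : Obj P) ∈ X)
    {θ : Ordinal.{0}} (hθ : (Sum.inl (ordN P θ) : Obj P) ∈ X) (hs : val X G H ⊆ vo X G θ)
    (hu : ∀ c ∈ vo X G θ, ∃ b ∈ val X G H, c ∈ b) :
    ∃ p ∈ G, ∀ q ≤ p, ∀ c < θ, ∃ r ≤ q, ∃ b, c < b ∧ b < θ ∧ FMem (ordN P b) H r := by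
  obtain ⟨p, hp, h1⟩ := h.gUnb _ (l2X hH hθ)
  refine ⟨p, hp, ?_⟩
  rcases h1 with ⟨y, hy, c, θ', H', he, hc, h2⟩ | h1
  · exfalso
    obtain ⟨he1, he2⟩ := List.cons.inj he
    obtain ⟨he2, he3⟩ := List.cons.inj he2
    obtain ⟨he3, -⟩ := List.cons.inj he3
    obtain rfl := Sum.inl.inj he2
    obtain rfl := ordN_inj' (Sum.inl.inj he3)
    rw [he1] at hy
    obtain ⟨b, hb1, hb2⟩ := hu _ ((h.vo_mem_iff hy hθ).2 hc)
    obtain ⟨b', hb', hbX, rfl⟩ := h.mem_vo.1 (hs hb1)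
    obtain ⟨q, hq, h3⟩ := (h.mem_iff hbX hH).1 hb1
    obtain ⟨r, -, hr1, hr2⟩ := h.basic.filt.compat hp hq
    exact h2 r hr1 b' ((h.vo_mem_iff hy hbX).1 hb2) hb' (h3.mono hr2)
  · intro q hq c hc
    by_contra hcon
    push Not at hcon
    exact h1 q hq _ ⟨c, θ, H, rfl, hc, fun r hr b hcb hb => hcon r hr b hcb hb⟩

end

end Pool.Agent.Helper3.SP
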