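import Pool.Agent.Helper27.SPT.Base

/-!
# Regularity of `κ` and `κ⁺` in the generic extension
-/

open Cardinal Ordinal Set

set_option linter.unusedSectionVars false

namespace Pool.Agent.Helper3.SP

open Pool.Agent.Helper96.Fc

variable {P : Type} [PartialOrder P] [OrderTop P] {κ : Cardinal.{0}} {X : Set (Obj P)} {G : Set P}

/-- `p` forces that `f` is a function (on ordinals) -/
def FnAt (f : Nm P) (p : P) : Prop :=
  ∀ q ≤ p, ∀ β ξ η, FMem (pairN (ordN P β) (ordN P ξ)) f q →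
    FMem (pairN (ordN P β) (ordN P η)) f q → ξ = η

/-- `q` forces that the values of `f` on `b` below `θ` are below `γ` -/
def BdAt (f : Nm P) (q : P) (b θ γ : Ordinal.{0}) : Prop :=
  ∀ r ≤ q, ∀ x < b, ∀ y < θ, FMem (pairN (ordN P x) (ordN P y)) f r → y < γ

/-- regularity from bounds of functions -/
theorem Gd.reg_of (h : Gd κ X G) {θ : Ordinal.{0}} (hθ : (Sum.inl (ordN P θ) : Obj P) ∈ X)
    (hbd : ∀ (f : Nm P) (p : P), FnAt f p → ∀ b < θ, ∃ q ≤ p, ∃ γ < θ, BdAt f q b θ γ) :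
    RegIn (Mod X G) (vo X G θ) := by
  have key : ∀ f ∈ Mod X G, Func f → ∀ β ∈ vo X G θ, ∃ γ ∈ vo X G θ, ∀ x ∈ β,
      ∀ y ∈ vo X G θ, ZFSet.pair x y ∈ f → y ∈ γ := by
    rintro _ ⟨f, hf, rfl⟩ hfun β hβ
    obtain ⟨b, hb, hbX, rfl⟩ := h.mem_vo.1 hβ
    obtain ⟨p, hp, h1⟩ := h.exists_fn hf hfun
    obtain ⟨p', hp', h2⟩ := h.gBd _ (l3X hf hbX hθ)
    rcases h2 with ⟨y, hy, γ, b', θ', f', he, hγ, h3⟩ | h2
    · obtain ⟨he1, he2⟩ := List.cons.inj he
      obtain ⟨he2, he3⟩ := List.cons.inj he2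
      obtain ⟨he3, he4⟩ := List.cons.inj he3
      obtain ⟨he4, -⟩ := List.cons.inj he4
      obtain rfl := Sum.inl.inj he2
      obtain rfl := ordN_inj' (Sum.inl.inj he3)
      obtain rfl := ordN_inj' (Sum.inl.inj he4)
      rw [he1] at hy
      refine ⟨vo X G γ, (h.vo_mem_iff hy hθ).2 hγ, ?_⟩
      intro x hx y hy' hxy
      obtain ⟨x', hx', hxX, rfl⟩ := h.mem_vo.1 hx
      obtain ⟨y', hy'', hyX, rfl⟩ := h.mem_vo.1 hy'
      obtain ⟨q, hq, h4⟩ := (h.pair_iff hxX hyX hf).1 hxy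
      obtain ⟨r, -, hr1, hr2⟩ := h.basic.filt.compat hp' hq
      exact (h.vo_mem_iff hyX hy).2 (h3 r hr1 x' hx' y' hy'' (h4.mono hr2))
    · exfalso
      obtain ⟨p1, -, hp1, hp2⟩ := h.basic.filt.compat hp hp'
      obtain ⟨q, hq, γ, hγ, h3⟩ := hbd f p1 (fun q hq => h1 q (hq.trans hp1)) b hb
      exact h2 q (hq.trans hp2) _ ⟨γ, b, θ, f, rfl, hγ, h3⟩
  refine ⟨⟨Gd.vo_mod hθ, h.vo_ord, ?_⟩, key⟩
  rintro α hα ⟨f, hf, hfun, hon⟩
  obtain ⟨γ, hγ, hb⟩ := key f hf hfun α hα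
  obtain ⟨x, hx, hxb⟩ := hon γ hγ
  exact ZFSet.mem_irrefl _ (hb x hx γ hγ hxb)

/-- bounds below `κ` -/
theorem bd_K (hκ : ℵ₀ < κ) (hreg : κ.IsRegular)
    (hP : GP κ.ord.ToType (Order.succ κ).ord.ToType P) (f : Nm P) (p : P) (hf : FnAt f p)
    (b : Ordinal.{0}) (hb : b < κ.ord) : ∃ q ≤ p, ∃ γ < κ.ord, BdAt f q b κ.ord γ := by
  classical
  have hI : #b.ToType < #κ.ord.ToType := by
    rw [Cardinal.mk_ord_toType, Cardinal.mk_toType]
    exact Cardinal.lt_ord.1 hb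
  have hlim : Order.IsSuccLimit κ.ord := Cardinal.isSuccLimit_ord hκ.le
  obtain ⟨q, hq, h1⟩ := hP.dist b.ToType hI
    (fun i => {q | (∃ y < κ.ord, FMem (pairN (ordN P (od i)) (ordN P y)) f q) ∨
      ∀ r ≤ q, ∀ y < κ.ord, ¬ FMem (pairN (ordN P (od i)) (ordN P y)) f r})
    (by
      intro i p
      by_cases hc : ∃ q ≤ p, ∃ y < κ.ord, FMem (pairN (ordN P (od i)) (ordN P y)) f q
      · obtain ⟨q, hq, hy⟩ := hc
        exact ⟨q, hq, Or.inl hy⟩
      · push Not at hc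
        exact ⟨p, le_rfl, Or.inr hc⟩)
    (by
      rintro i p q hqp (⟨y, hy, h1⟩ | h1)
      · exact Or.inl ⟨y, hy, h1.mono hqp⟩
      · exact Or.inr fun r hr => h1 r (hr.trans hqp)) p
  let g : b.ToType → Ordinal.{0} := fun i =>
    if h : ∃ y < κ.ord, FMem (pairN (ordN P (od i)) (ordN P y)) f q then h.choose + 1 else 0
  have hg : ∀ i, g i < κ.ord := by
    intro i
    by_cases hc : ∃ y < κ.ord, FMem (pairN (ordN P (od i)) (ordN P y)) f q
    · change (if h : _ then _ else _) < _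
      rw [dif_pos hc]
      exact hlim.add_one_lt hc.choose_spec.1
    · change (if h : _ then _ else _) < _
      rw [dif_neg hc]
      exact hlim.bot_lt
  have hγ : (⨆ i, g i) < κ.ord := by
    apply Ordinal.iSup_lt_of_lt_cof _ hg
    rw [hreg.cof_ord, Cardinal.mk_toType]
    exact Cardinal.lt_ord.1 hb
  refine ⟨q, hq, _, hγ, ?_⟩
  intro r hr x hx y hy hm
  obtain ⟨i, rfl⟩ := exists_od hx
  rcases h1 i with h2 | h2
  · have h3 := h2.choose_spec
    have h4 := hf r (hr.trans hq) _ _ _ hm (h3.2.mono hr)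
    have h5 : g i = h2.choose + 1 := by
      change (if h : _ then _ else _) = _
      rw [dif_pos h2]
    have h6 : g i ≤ ⨆ i, g i := Ordinal.le_iSup g i
    rw [h5] at h6
    rw [h4]
    exact lt_of_lt_of_le (Order.lt_add_one_iff.2 le_rfl) h6
  · exact (h2 r hr y hy hm).elim

/-- bounds below `κ⁺` -/
theorem bd_M (hκ : ℵ₀ < κ) (hP : GP κ.ord.ToType (Order.succ κ).ord.ToType P) (f : Nm P) (p : P)
    (hf : FnAt f p) (b : Ordinal.{0}) (hb : b < (Order.succ κ).ord) :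
    ∃ q ≤ p, ∃ γ < (Order.succ κ).ord, BdAt f q b (Order.succ κ).ord γ := by
  classical
  set θ := (Order.succ κ).ord with hθ
  have hreg : (Order.succ κ).IsRegular := Cardinal.isRegular_succ hκ.le
  have hlim : Order.IsSuccLimit θ := Cardinal.isSuccLimit_ord (hκ.le.trans (Order.le_succ κ))
  let V : b.ToType → Set θ.ToType := fun i =>
    {a | ∃ q ≤ p, FMem (pairN (ordN P (od i)) (ordN P (od a))) f q}
  have hV : ∀ i, #(V i) ≤ κ := by
    intro i
    choose w hw1 hw2 using fun a : V i => a.2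
    have hinc : ∀ a a' : V i, (∃ r, r ≤ w a ∧ r ≤ w a') → a = a' := by
      rintro a a' ⟨r, h1, h2⟩
      have := hf r (h1.trans (hw1 a)) _ _ _ ((hw2 a).mono h1) ((hw2 a').mono h2)
      exact Subtype.ext (od_inj this)
    have h1 : #(Set.range w) ≤ #κ.ord.ToType := by
      apply hP.cc
      rintro _ ⟨a, rfl⟩ _ ⟨a', rfl⟩ hne hr
      exact hne (by rw [hinc a a' hr])
    rw [Cardinal.mk_ord_toType] at h1
    refine le_trans ?_ h1
    rw [Cardinal.mk_range_eq w]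
    intro a a' h
    exact hinc a a' ⟨w a, le_rfl, h.le⟩
  have hJ : #(Σ i : b.ToType, V i) < θ.cof := by
    rw [show θ.cof = Order.succ κ from hreg.cof_ord, Order.lt_succ_iff, Cardinal.mk_sigma]
    have h1 : #b.ToType ≤ κ := by
      rw [Cardinal.mk_toType]
      exact Order.lt_succ_iff.1 (Cardinal.lt_ord.1 hb)
    calc Cardinal.sum (fun i => #(V i)) ≤ Cardinal.sum (fun _ : b.ToType => κ) :=
          Cardinal.sum_le_sum _ _ hV
      _ = #b.ToType * κ := by rw [Cardinal.sum_const, Cardinal.lift_id, Cardinal.lift_id]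
      _ ≤ κ * κ := mul_le_mul' h1 le_rfl
      _ = κ := Cardinal.mul_eq_self hκ.le
  have hγ : (⨆ j : (Σ i : b.ToType, V i), (od j.2.1 + 1)) < θ := by
    apply Ordinal.iSup_lt_of_lt_cof hJ
    intro j
    exact hlim.add_one_lt (od_lt _)
  refine ⟨p, le_rfl, _, hγ, ?_⟩
  intro r hr x hx y hy hm
  obtain ⟨i, rfl⟩ := exists_od hx
  obtain ⟨a, rfl⟩ := exists_od hy
  have h2 : a ∈ V i := ⟨r, hr, hm⟩
  have h3 := Ordinal.le_iSup (fun j : (Σ i : b.ToType, V i) => (od j.2.1 + 1)) ⟨i, ⟨a, h2⟩⟩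
  exact lt_of_lt_of_le (Order.lt_add_one_iff.2 le_rfl) h3

theorem Gd.regK (h : Gd κ X G) (hκ : ℵ₀ < κ) (hreg : κ.IsRegular)
    (hP : GP κ.ord.ToType (Order.succ κ).ord.ToType P) :
    RegIn (Mod X G) (vo X G κ.ord) :=
  h.reg_of h.kX fun f p hf b hb => bd_K hκ hreg hP f p hf b hb

theorem Gd.regM (h : Gd κ X G) (hκ : ℵ₀ < κ)
    (hP : GP κ.ord.ToType (Order.succ κ).ord.ToType P) :
    RegIn (Mod X G) (vo X G (Order.succ κ).ord) :=
  h.reg_of h.mX fun f p hf b hb => bd_M hκ hP f p hf b hb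

theorem Gd.omega_mem (h : Gd κ X G) (hκ : ℵ₀ < κ) :
    Ordinal.toZFSet ω ∈ vo X G κ.ord := by
  rw [← h.vo_omega]
  refine (h.vo_mem_iff h.clos.omega h.kX).2 ?_
  rw [← Cardinal.ord_aleph0]
  exact Cardinal.ord_lt_ord.2 hκ

/-- every ordinal below `κ⁺` is an image of `κ` -/
theorem Gd.onto (h : Gd κ X G) {α : Ordinal.{0}} (hα : α < (Order.succ κ).ord)
    (hαX : (Sum.inl (ordN P α) : Obj P) ∈ X) :
    Onto (Mod X G) (vo X G κ.ord) (vo X G α) := by
  refine ⟨_, mem_Mod (h.sj α hαX), ?_, ?_⟩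
  · intro x y z hy hz
    obtain ⟨a, -, h1, h2⟩ := mem_val.1 hy
    obtain ⟨b, -, h3, h4⟩ := mem_val.1 hz
    change (Sum.inl (pairN (ordN P (od a)) (ordN P (SP.sj κ α (od a)))) : Obj P) ∈ X at h1
    change (Sum.inl (pairN (ordN P (od b)) (ordN P (SP.sj κ α (od b)))) : Obj P) ∈ X at h3
    change val X G (pairN (ordN P (od a)) (ordN P (SP.sj κ α (od a)))) = _ at h2
    change val X G (pairN (ordN P (od b)) (ordN P (SP.sj κ α (od b)))) = _ at h4
    rw [val_pairN h.basic.filt h.clos (h.clos.fst _ _ h1) (h.clos.snd _ _ h1)] at h2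
    rw [val_pairN h.basic.filt h.clos (h.clos.fst _ _ h3) (h.clos.snd _ _ h3)] at h4
    obtain ⟨h5, h6⟩ := ZFSet.pair_injective h2
    obtain ⟨h7, h8⟩ := ZFSet.pair_injective h4
    have h9 : od a = od b := h.vo_inj (h.clos.fst _ _ h1) (h.clos.fst _ _ h3) (h5.trans h7.symm)
    rw [← h6, ← h8, h9]
  · intro y hy
    obtain ⟨β, hβ, hβX, rfl⟩ := h.mem_vo.1 hy
    obtain ⟨h1, h2⟩ := pre_spec hα hβ
    have h3 := h.pre α β hαX hβX
    obtain ⟨a, ha⟩ := exists_od h1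
    refine ⟨vo X G (SP.pre κ α β), (h.vo_mem_iff h3 h.kX).2 h1, ?_⟩
    have h4 : ZFSet.pair (vo X G (SP.pre κ α β)) (vo X G β) =
        val X G (pairN (ordN P (SP.pre κ α β)) (ordN P β)) :=
      (val_pairN h.basic.filt h.clos h3 hβX).symm
    rw [h4]
    refine mem_val.2 ⟨a, h.basic.filt.top, ?_, ?_⟩
    · change (Sum.inl (pairN (ordN P (od a)) (ordN P (SP.sj κ α (od a)))) : Obj P) ∈ X
      rw [ha, h2]
      exact h.clos.pair h3 hβX
    · change val X G (pairN (ordN P (od a)) (ordN P (SP.sj κ α (od a)))) = _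
      rw [ha, h2]

theorem Gd.next (h : Gd κ X G) (hκ : ℵ₀ < κ)
    (hP : GP κ.ord.ToType (Order.succ κ).ord.ToType P) :
    NextCard (Mod X G) (vo X G κ.ord) (vo X G (Order.succ κ).ord) := by
  refine ⟨(h.regM hκ hP).1, (h.vo_mem_iff h.kX h.mX).2
    (Cardinal.ord_lt_ord.2 (Order.lt_succ κ)), ?_⟩
  intro a ha
  obtain ⟨α, hα, hαX, rfl⟩ := h.mem_vo.1 ha
  exact h.onto hα hαX

end Pool.Agent.Helper3.SP
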