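import Pool.Agent.Helper27.SPT.T1
import Pool.Agent.Helper77.SP.T2

/-!
# Transfer of the properties `GP` to a countable transitive model
-/

open Cardinal Ordinal Set

namespace Pool.Agent.Helper3.SP

open Pool.Agent.Helper96.Fc

theorem transfer (κ : Cardinal.{0}) (hκ : ℵ₀ < κ) (hreg : κ.IsRegular) {P : Type}
    [PartialOrder P] [OrderTop P] (hP : GP κ.ord.ToType (Order.succ κ).ord.ToType P) :
    ∃ (N : Set ZFSet.{0}) (K M : ZFSet.{0}), N.Countable ∧ IsZFC N ∧ RegIn N K ∧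
      Ordinal.toZFSet Ordinal.omega0 ∈ K ∧ NextCard N K M ∧ ¬ WeaklyCompactIn N K ∧
      StrongPol N K M := by
  obtain ⟨W, hW1, hW2⟩ := hP.wc
  obtain ⟨X, G, hX, h, hR, hO⟩ := exists_gd' κ (K := ℕ) (R2 (Order.succ κ).ord W) (O2 W)
    (O2_fun W)
  have hlim : ∀ a < κ.ord, a + 1 < κ.ord := fun a ha =>
    (Cardinal.isSuccLimit_ord hκ.le).add_one_lt ha
  have hK := h.regK hκ hreg hP
  have hM := h.regM hκ hP
  obtain ⟨h1, h2⟩ := t2 (X := X) (G := G) ⟨h.basic, h.clos, h.kX, h.mX, hO, hR⟩ hlim hW1 hW2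
    hP.pos hK hM
  exact ⟨Mod X G, vo X G κ.ord, vo X G (Order.succ κ).ord, Mod_countable hX,
    Mod.isZFC h.basic h.clos, hK, h.omega_mem hκ, h.next hκ hP, h1, h2⟩

end Pool.Agent.Helper3.SP
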